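import Pool.Agent.Helper57.SI.Stmts

/-!
# Almost every interval contains a point with the phase `α`
-/

set_option autoImplicit false

namespace Pool.Agent.Helper3.SI

open MeasureTheory Set Filter Topology
open Pool.Agent.Helper57.QZ (Pr tor circ aa Zy Wy Sy Vy Ky Fy pt lin)
open Pool.Agent.Helper57.SI

theorem fej_cont (K : ℕ) : Continuous (fej K) := by
  unfold fej
  refine continuous_finsetSum _ fun k _ => ?_
  exact continuous_const.mul (Real.continuous_cos.comp (continuous_const.mul continuous_id))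

theorem fej_per (K : ℕ) (x : ℝ) : fej K (x + 2 * Real.pi) = fej K x := by
  unfold fej
  refine Finset.sum_congr rfl fun k _ => ?_
  rw [show (k : ℝ) * (x + 2 * Real.pi) = (k : ℝ) * x + (k : ℤ) * (2 * Real.pi) by ring,
    Real.cos_add_int_mul_two_pi]

theorem tl_cont (j y x : ℕ) : Continuous (tl j y x) := by
  unfold tl
  refine continuous_finsetSum _ fun p _ => ?_
  split_ifs
  · refine continuous_const.mul (Complex.continuous_exp.comp ?_)
    exact ((Complex.continuous_ofReal.comp (continuous_apply p)).mul continuous_const).neg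
  · exact continuous_const

theorem wt_cont (y z K : ℕ) (α : ℝ) : Continuous (wt y z K α) := by
  unfold wt
  refine continuous_finsetProd _ fun p _ => ?_
  split_ifs
  · exact (fej_cont K).comp ((continuous_apply p).add continuous_const)
  · exact continuous_const

theorem lin_cont (y : ℕ) : Continuous (lin y) := by
  unfold lin
  exact continuous_pi fun p => continuous_id.mul continuous_const

theorem exp_per (x : ℝ) : Complex.exp (-(((x + 2 * Real.pi : ℝ) : ℂ) * Complex.I)) =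
    Complex.exp (-((x : ℂ) * Complex.I)) := by
  have : -(((x + 2 * Real.pi : ℝ) : ℂ) * Complex.I) =
      -((x : ℂ) * Complex.I) - 2 * Real.pi * Complex.I := by
    push_cast; ring
  rw [this, Complex.exp_sub, Complex.exp_two_pi_mul_I, div_one]

theorem tl_per (j y x : ℕ) (φ : Pr y → ℝ) (p : Pr y) :
    tl j y x (Function.update φ p (φ p + 2 * Real.pi)) = tl j y x φ := by
  unfold tl
  refine Finset.sum_congr rfl fun q _ => ?_
  by_cases h : q = p
  · subst h
    rw [Function.update_self, exp_per]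
  · rw [Function.update_of_ne h]

theorem wt_per (y z K : ℕ) (α : ℝ) (φ : Pr y → ℝ) (p : Pr y) :
    wt y z K α (Function.update φ p (φ p + 2 * Real.pi)) = wt y z K α φ := by
  unfold wt
  refine Finset.prod_congr rfl fun q _ => ?_
  by_cases h : q = p
  · subst h
    rw [Function.update_self, show φ q + 2 * Real.pi + α = φ q + α + 2 * Real.pi by ring, fej_per]
  · rw [Function.update_of_ne h]

theorem wt_nonneg (h : ST_FJ0) (y z K : ℕ) (hK : 1 ≤ K) (α : ℝ) (φ : Pr y → ℝ) :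
    0 ≤ wt y z K α φ := by
  unfold wt
  refine Finset.prod_nonneg fun q _ => ?_
  split_ifs
  · exact h K _ hK
  · exact zero_le_one

theorem wt_lin (y z K : ℕ) (α t : ℝ) (hzy : z ≤ y) :
    wt y z K α (lin y t) = ww z K α t := by
  unfold wt ww lin
  rw [Finset.prod_coe_sort (Nat.primesBelow (y + 1))
    (fun p : ℕ => if p ≤ z then fej K (t * Real.log (p : ℝ) + α) else 1),
    Finset.prod_coe_sort (Nat.primesBelow (z + 1))
    (fun p : ℕ => fej K (t * Real.log (p : ℝ) + α)), ← Finset.prod_filter]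
  refine Finset.prod_congr ?_ fun _ _ => rfl
  ext p
  simp only [Finset.mem_filter, Nat.mem_primesBelow]
  constructor
  · rintro ⟨⟨_, h2⟩, h3⟩
    exact ⟨by omega, h2⟩
  · rintro ⟨h1, h2⟩
    exact ⟨⟨by omega, h2⟩, by omega⟩

theorem log_pr (z : ℕ) (p : Pr z) : 0 ≤ Real.log ((p : ℕ) : ℝ) := Real.log_natCast_nonneg _

theorem D1_nonneg (z : ℕ) (α t : ℝ) : 0 ≤ D1 z α t := by
  unfold D1
  refine Finset.sum_nonneg fun p _ => div_nonneg ?_ (Nat.cast_nonneg _)
  linarith [Real.cos_le_one (t * Real.log ((p : ℕ) : ℝ) + α)]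

theorem D2_nonneg (z : ℕ) (α t : ℝ) : 0 ≤ D2 z α t := by
  unfold D2
  refine Finset.sum_nonneg fun p _ => div_nonneg (mul_nonneg (log_pr z p) ?_) (Nat.cast_nonneg _)
  linarith [Real.cos_le_one (t * Real.log ((p : ℕ) : ℝ) + α)]

theorem ww_cont (z K : ℕ) (α : ℝ) : Continuous (ww z K α) := by
  unfold ww
  refine continuous_finsetProd _ fun p _ => ?_
  exact (fej_cont K).comp ((continuous_id.mul continuous_const).add continuous_const)

theorem D1_cont (z : ℕ) (α : ℝ) : Continuous (D1 z α) := by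
  unfold D1
  refine continuous_finsetSum _ fun p _ => ?_
  exact (continuous_const.sub (Real.continuous_cos.comp
    ((continuous_id.mul continuous_const).add continuous_const))).div_const _

theorem D2_cont (z : ℕ) (α : ℝ) : Continuous (D2 z α) := by
  unfold D2
  refine continuous_finsetSum _ fun p _ => ?_
  exact (continuous_const.mul (continuous_const.sub (Real.continuous_cos.comp
    ((continuous_id.mul continuous_const).add continuous_const)))).div_const _

/-- the parameters tend to infinity -/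
theorem zz_large (C : ℝ) : ∃ H₀ : ℝ, ∀ H : ℝ, H₀ ≤ H → C ≤ (zz H : ℝ) ∧ 1 ≤ Kk H := by
  have hL : Tendsto (fun H : ℝ => Real.log H) atTop atTop := Real.tendsto_log_atTop
  have hLL : Tendsto (fun H : ℝ => Real.log (Real.log H)) atTop atTop := hL.comp hL
  have h1 : Tendsto (fun x : ℝ => Real.log x / x) atTop (𝓝 0) := by
    have := Real.isLittleO_log_id_atTop.tendsto_div_nhds_zero
    exact this
  have h2 : ∀ᶠ x : ℝ in atTop, Real.log x / x < 1 / (16 * (|C| + 1)) :=
    h1.eventually_lt_const (by positivity)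
  have h3 : ∀ᶠ H : ℝ in atTop, Real.log (Real.log H) / Real.log H < 1 / (16 * (|C| + 1)) :=
    hL.eventually h2
  have h4 : ∀ᶠ H : ℝ in atTop, (1 : ℝ) ≤ Real.log (Real.log H) := hLL.eventually_ge_atTop 1
  have h5 : ∀ᶠ H : ℝ in atTop, (1 : ℝ) ≤ Real.log H := hL.eventually_ge_atTop 1
  obtain ⟨H₀, hH⟩ := eventually_atTop.1 (h3.and (h4.and h5))
  refine ⟨H₀, fun H hHH => ?_⟩
  obtain ⟨a1, a2, a3⟩ := hH H hHH
  have hK1 : (1 : ℝ) ≤ (Kk H : ℝ) := by
    unfold Kk
    exact le_trans a2 (Nat.le_ceil _)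
  have hK2 : (Kk H : ℝ) ≤ 2 * Real.log (Real.log H) := by
    unfold Kk
    have := Nat.ceil_lt_add_one (by linarith : 0 ≤ Real.log (Real.log H))
    linarith
  refine ⟨?_, by exact_mod_cast hK1⟩
  have hC : 0 ≤ |C| := abs_nonneg C
  have hlogpos : 0 < Real.log H := by linarith
  rw [div_lt_iff₀ hlogpos] at a1
  have b1 : |C| + 1 ≤ Real.log H / (8 * (Kk H : ℝ)) := by
    rw [le_div_iff₀ (by linarith)]
    have : 1 / (16 * (|C| + 1)) * Real.log H * (16 * (|C| + 1)) = Real.log H := by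
      field_simp
    nlinarith
  have b2 : Real.log H / (8 * (Kk H : ℝ)) < (zz H : ℝ) + 1 := by
    unfold zz
    exact Nat.lt_floor_add_one _
  linarith [le_abs_self C]

/-- the functions on the torus -/
noncomputable def Gj (j y z K : ℕ) (α : ℝ) (φ : Pr y → ℝ) : ℝ :=
  wt y z K α φ * ‖tl j y z φ‖ ^ 2

theorem Gj_cont (j y z K : ℕ) (α : ℝ) : Continuous (Gj j y z K α) :=
  (wt_cont y z K α).mul ((tl_cont j y z).norm.pow 2)

theorem Gj_bound (hTW : ST_TW) (C : ℝ)
    (hC : ∀ y x : ℕ, 1 ≤ x → ∑ p : Pr y, (if x < (p : ℕ) then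
      ((1 + Real.log ((p : ℕ) : ℝ)) ^ 2 / ((p : ℕ) : ℝ)) ^ 2 else 0) ≤
        C * (x : ℝ) ^ (-(1 - (1 / 2 : ℝ))))
    (j : ℕ) (hj : j ≤ 1) (y z K : ℕ) (α : ℝ) (hK : 1 ≤ K) (hz : 1 ≤ z) :
    ∫ φ, Gj j y z K α φ ∂tor y ≤ C * (z : ℝ) ^ (-(1 - (1 / 2 : ℝ))) := by
  refine le_trans (hTW y z K j α hK) (le_trans (Finset.sum_le_sum fun p _ => ?_) (hC y z hz))
  split_ifs with h
  · have hp : (0 : ℝ) ≤ ((p : ℕ) : ℝ) := Nat.cast_nonneg _
    have hl := log_pr y p
    have e : Real.log ((p : ℕ) : ℝ) ^ j ≤ (1 + Real.log ((p : ℕ) : ℝ)) ^ 2 := by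
      interval_cases j
      · rw [pow_zero]; nlinarith
      · rw [pow_one]; nlinarith
    have e0 : 0 ≤ Real.log ((p : ℕ) : ℝ) ^ j := pow_nonneg hl j
    exact pow_le_pow_left₀ (div_nonneg e0 hp) (div_le_div_of_nonneg_right e hp) 2
  · exact le_rfl

/-- the sum of the two functions on the line -/
theorem Gj_lin (y z K : ℕ) (α t : ℝ) (hzy : z ≤ y) :
    Gj 0 y z K α (lin y t) + Gj 1 y z K α (lin y t) =
      ww z K α t * (‖tl 0 y z (lin y t)‖ ^ 2 + ‖tl 1 y z (lin y t)‖ ^ 2) := by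
  unfold Gj
  rw [wt_lin y z K α t hzy]
  ring

theorem pointwise (η w d1 d2 L a b : ℝ) (hη : 0 < η) (hL : 0 < L) (hw : 0 ≤ w) (hd1 : 0 ≤ d1)
    (hd2 : 0 ≤ d2) (ha : 0 ≤ a) (hb : 0 ≤ b)
    (h : ¬ (d1 ≤ η ∧ d2 ≤ η * L ∧ a ≤ η ∧ b ≤ η)) :
    w * (1 - d1 / η - d2 / (η * L)) ≤ w * (a ^ 2 + b ^ 2) / η ^ 2 := by
  have hηL : 0 < η * L := mul_pos hη hL
  have e1 : 0 ≤ d1 / η := div_nonneg hd1 hη.le
  have e2 : 0 ≤ d2 / (η * L) := div_nonneg hd2 hηL.le
  have e3 : 0 ≤ a ^ 2 / η ^ 2 := by positivity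
  have e4 : 0 ≤ b ^ 2 / η ^ 2 := by positivity
  have key : 1 - d1 / η - d2 / (η * L) ≤ a ^ 2 / η ^ 2 + b ^ 2 / η ^ 2 := by
    by_cases c1 : d1 ≤ η
    · by_cases c2 : d2 ≤ η * L
      · by_cases c3 : a ≤ η
        · have c4 : η < b := by
            by_contra hcon
            exact h ⟨c1, c2, c3, not_lt.1 hcon⟩
          have : 1 ≤ b ^ 2 / η ^ 2 := by
            rw [le_div_iff₀ (by positivity), one_mul]
            exact pow_le_pow_left₀ hη.le c4.le 2
          linarith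
        · have : 1 ≤ a ^ 2 / η ^ 2 := by
            rw [le_div_iff₀ (by positivity), one_mul]
            exact pow_le_pow_left₀ hη.le (not_le.1 c3).le 2
          linarith
      · have : 1 ≤ d2 / (η * L) := by
          rw [le_div_iff₀ hηL, one_mul]
          exact (not_le.1 c2).le
        linarith
    · have : 1 ≤ d1 / η := by
        rw [le_div_iff₀ hη, one_mul]
        exact (not_le.1 c1).le
      linarith
  have : w * (a ^ 2 + b ^ 2) / η ^ 2 = w * (a ^ 2 / η ^ 2 + b ^ 2 / η ^ 2) := by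
    field_simp
  rw [this]
  exact mul_le_mul_of_nonneg_left key hw

theorem rpow_small (C s : ℝ) (z : ℕ) (hC : 0 < C) (hs : 0 < s) (hz1 : 1 ≤ z)
    (hz : (C / s) ^ 2 ≤ (z : ℝ)) : C * (z : ℝ) ^ (-(1 - (1 / 2 : ℝ))) ≤ s := by
  have hz0 : (0 : ℝ) < z := by exact_mod_cast hz1
  have e : (z : ℝ) ^ (-(1 - (1 / 2 : ℝ))) = (Real.sqrt z)⁻¹ := by
    rw [show (-(1 - (1 / 2 : ℝ))) = -(1 / 2 : ℝ) by norm_num, Real.rpow_neg hz0.le,
      Real.sqrt_eq_rpow]
  have h1 : C / s ≤ Real.sqrt z := Real.le_sqrt_of_sq_le hz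
  have h2 : 0 < Real.sqrt z := Real.sqrt_pos.2 hz0
  rw [e, ← div_eq_mul_inv, div_le_iff₀ h2]
  rw [div_le_iff₀ hs] at h1
  linarith

theorem st_LOW (h1 : ST_FJ0) (h2 : ST_LB) (h3 : ST_TW) (h4 : ST_TSQ) (h5 : ST_KW3)
    (h6 : ST_MK) : ST_LOW := by
  intro η hη κ hκ
  obtain ⟨C, hC0, hC⟩ := h4 (1 / 2) ⟨by norm_num, by norm_num⟩
  obtain ⟨H₁, hLB⟩ := h2 η hη.1
  have hη0 : 0 < η := hη.1
  obtain ⟨s, hs⟩ : ∃ s : ℝ, s = κ * η ^ 2 / 400 := ⟨_, rfl⟩
  have hs0 : 0 < s := by rw [hs]; positivity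
  obtain ⟨H₂, hz⟩ := zz_large (max 2 ((C / s) ^ 2))
  refine ⟨max H₁ (max H₂ 1), fun H hH y α hzy => ?_⟩
  have hH1 : H₁ ≤ H := le_trans (le_max_left _ _) hH
  have hH2 : H₂ ≤ H := le_trans (le_trans (le_max_left _ _) (le_max_right _ _)) hH
  have hH3 : 1 ≤ H := le_trans (le_trans (le_max_right _ _) (le_max_right _ _)) hH
  obtain ⟨hz2, hK⟩ := hz H hH2
  have hz2' : (2 : ℝ) ≤ (zz H : ℝ) := le_trans (le_max_left _ _) hz2
  have hzC : (C / s) ^ 2 ≤ (zz H : ℝ) := le_trans (le_max_right _ _) hz2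
  have hz1 : 1 ≤ zz H := by
    have : (1 : ℝ) ≤ (zz H : ℝ) := by linarith
    exact_mod_cast this
  have hL : 0 < Real.log (zz H) := Real.log_pos (by linarith)
  have hsm := rpow_small C s (zz H) hC0 hs0 hz1 hzC
  generalize hzz : zz H = z at *
  generalize hKK : Kk H = K at *
  -- the two functions on the torus
  have hG0 : ∀ j φ, 0 ≤ Gj j y z K α φ := fun j φ =>
    mul_nonneg (wt_nonneg h1 y z K hK α φ) (sq_nonneg _)
  have hGp : ∀ (j : ℕ) (φ : Pr y → ℝ) (p : Pr y),
      Gj j y z K α (Function.update φ p (φ p + 2 * Real.pi)) = Gj j y z K α φ := by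
    intro j φ p
    unfold Gj
    rw [wt_per, tl_per]
  obtain ⟨Ta, hTa0, hTa⟩ := h5 y (Gj 0 y z K α) (Gj_cont 0 y z K α) (hG0 0) (hGp 0) s hs0
  obtain ⟨Tb, hTb0, hTb⟩ := h5 y (Gj 1 y z K α) (Gj_cont 1 y z K α) (hG0 1) (hGp 1) s hs0
  refine ⟨max (max Ta Tb) (2 * H + 4), lt_of_lt_of_le hTa0
    (le_trans (le_max_left _ _) (le_max_left _ _)), fun T hT => ?_⟩
  have hT1 : Ta ≤ T := le_trans (le_trans (le_max_left _ _) (le_max_left _ _)) hT
  have hT2 : Tb ≤ T := le_trans (le_trans (le_max_right _ _) (le_max_left _ _)) hT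
  have hT3 : 2 * H + 4 ≤ T := le_trans (le_max_right _ _) hT
  have hT0 : 0 < T := by linarith
  have hca : Continuous fun t => Gj 0 y z K α (lin y t) := (Gj_cont 0 y z K α).comp (lin_cont y)
  have hcb : Continuous fun t => Gj 1 y z K α (lin y t) := (Gj_cont 1 y z K α).comp (lin_cont y)
  have hc0 : 0 < η ^ 2 * H / 4 := by positivity
  obtain ⟨E, hE1, hE2, hE3⟩ := h6 (fun t => Gj 0 y z K α (lin y t) + Gj 1 y z K α (lin y t)) H
    (η ^ 2 * H / 4) T hH3 hc0 hT3 (hca.add hcb).continuousOn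
    (fun t => add_nonneg (hG0 0 _) (hG0 1 _))
  refine ⟨E, hE1, ?_, fun u hu huE => ?_⟩
  · refine le_trans hE2 ?_
    have i1 := hTa T hT1
    have i2 := hTb T hT2
    have b1 := Gj_bound h3 C hC 0 (by norm_num) y z K α hK hz1
    have b2 := Gj_bound h3 C hC 1 le_rfl y z K α hK hz1
    have i3 : ∫ t in (T / 2)..(4 * T), (Gj 0 y z K α (lin y t) + Gj 1 y z K α (lin y t)) ≤
        16 * T * s := by
      rw [intervalIntegral.integral_add (hca.intervalIntegrable _ _) (hcb.intervalIntegrable _ _)]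
      have j1 : 4 * T * (∫ φ, Gj 0 y z K α φ ∂tor y + s) ≤ 4 * T * (s + s) :=
        mul_le_mul_of_nonneg_left (by linarith) (by linarith)
      have j2 : 4 * T * (∫ φ, Gj 1 y z K α φ ∂tor y + s) ≤ 4 * T * (s + s) :=
        mul_le_mul_of_nonneg_left (by linarith) (by linarith)
      linarith
    have i4 : (H + 2) / (η ^ 2 * H / 4) ≤ 12 / η ^ 2 := by
      rw [div_le_div_iff₀ hc0 (by positivity)]
      have : 0 < η ^ 2 := by positivity
      nlinarith
    have i5 : 0 ≤ (H + 2) / (η ^ 2 * H / 4) := by positivity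
    calc (H + 2) / (η ^ 2 * H / 4) *
          ∫ t in (T / 2)..(4 * T), (Gj 0 y z K α (lin y t) + Gj 1 y z K α (lin y t))
        ≤ (H + 2) / (η ^ 2 * H / 4) * (16 * T * s) := mul_le_mul_of_nonneg_left i3 i5
      _ ≤ 12 / η ^ 2 * (16 * T * s) := mul_le_mul_of_nonneg_right i4 (by positivity)
      _ = 192 / 400 * (κ * T) := by rw [hs]; field_simp; ring
      _ ≤ κ * T := by nlinarith [mul_pos hκ hT0]
  · have i1 := hE3 u hu huE
    have i0 := hLB H hH1 u α
    rw [hzz, hKK] at i0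
    by_contra hcon
    push Not at hcon
    have hcf : Continuous fun t =>
        (Gj 0 y z K α (lin y t) + Gj 1 y z K α (lin y t)) := hca.add hcb
    have i2 : ∫ t in u..(u + H), ww z K α t *
        (1 - D1 z α t / η - D2 z α t / (η * Real.log z)) ≤
        ∫ t in u..(u + H), (Gj 0 y z K α (lin y t) + Gj 1 y z K α (lin y t)) / η ^ 2 := by
      refine intervalIntegral.integral_mono_on (by linarith) ?_ ?_ fun t ht => ?_
      · refine Continuous.intervalIntegrable ?_ _ _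
        exact (ww_cont z K α).mul ((continuous_const.sub ((D1_cont z α).div_const _)).sub
          ((D2_cont z α).div_const _))
      · exact (hcf.div_const _).intervalIntegrable _ _
      · rw [Gj_lin y z K α t hzy]
        refine pointwise η _ _ _ _ _ _ hη0 hL ?_ (D1_nonneg z α t) (D2_nonneg z α t)
          (norm_nonneg _) (norm_nonneg _) ?_
        · rw [← wt_lin y z K α t hzy]
          exact wt_nonneg h1 y z K hK α _
        · rintro ⟨q1, q2, q3, q4⟩
          exact absurd q4 (not_le.2 (hcon t ht q1 q2 q3))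
    have i3 : ∫ t in u..(u + H), (Gj 0 y z K α (lin y t) + Gj 1 y z K α (lin y t)) ≤
        ∫ t in (u - 1)..(u + H + 1), (Gj 0 y z K α (lin y t) + Gj 1 y z K α (lin y t)) := by
      refine intervalIntegral.integral_mono_interval (by linarith) (by linarith) (by linarith)
        ?_ (hcf.intervalIntegrable _ _)
      exact Filter.Eventually.of_forall fun t => add_nonneg (hG0 0 _) (hG0 1 _)
    rw [intervalIntegral.integral_div] at i2
    have i4 : (∫ t in u..(u + H), (Gj 0 y z K α (lin y t) + Gj 1 y z K α (lin y t))) / η ^ 2 ≤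
        H / 4 := by
      rw [div_le_iff₀ (by positivity)]
      have : H / 4 * η ^ 2 = η ^ 2 * H / 4 := by ring
      rw [this]
      exact le_trans i3 i1
    linarith

end Pool.Agent.Helper3.SI
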